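import Pool.Agent.H224R2.Mah.Defs

/-!
# Task A10: assembly of `Dom PP SS` (planar part of the symmetric Mahler conjecture)

The statements of A3, A4, A6, A7, A8, A9 enter as explicit hypotheses (with the exact statements of
the stubs).
-/

namespace Pool.Agent.H224R2.Mah

open MeasureTheory Set Filter Topology
open scoped ENNReal RealInnerProductSpace

/-- A10, with the earlier tasks as explicit hypotheses. -/
theorem A10_dom_of
    (hA3 : ∀ {ζ : ℂ}, ‖ζ‖ < 1 → ‖U ζ‖ ≤ ‖ζ‖ ∧ ‖ζ‖ ≤ 2 * ‖U ζ‖ ∧ U (-ζ) = -U ζ ∧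
      U ((starRingEnd ℂ) ζ) = (starRingEnd ℂ) (U ζ))
    (hA4 : IsOpen PP ∧ (∀ u ∈ PP, ‖hh u‖ < 1 ∧ U (hh u) = u ∧
      HasDerivAt hh (U' (hh u))⁻¹ u) ∧ (∀ ζ : ℂ, ‖ζ‖ < 1 → U ζ ∈ PP ∧ hh (U ζ) = ζ) ∧
      ∀ r : ℝ, r < 1 → IsCompact {u | u ∈ PP ∧ ‖hh u‖ ≤ r})
    (hA6 : ∀ {m : ℕ}, 2 ≤ m → PSH PP (SS m) ∧ ∀ u ∈ PP,
      |dx (SS m) u| = Real.sign u.re * dx (SS m) u ∧ (0 < u.re → 0 < dx (SS m) u) ∧
      |dx (SS m) u| ≤ 2 / Real.pi * (lap (SS m) u / (2 * m)))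
    (hA7 : ∀ {m : ℕ}, 2 ≤ m → ∀ u ∈ PP, ∀ v ∈ PP, u.im = v.im → u.re < v.re →
      (∀ x, u.re ≤ x → x ≤ v.re → (⟨x, u.im⟩ : ℂ) ∈ PP) ∧
      Real.sign u.re * SS m u < Real.sign v.re * SS m v)
    (hA8 : ∀ {m : ℕ}, 2 ≤ m → ∀ f : ℝ → ℝ≥0∞, Measurable f →
      ∫⁻ u in PP, f (SS m u) * ENNReal.ofReal (lap (SS m) u / (2 * m)) =
        ENNReal.ofReal (2 * Real.pi) * ∫⁻ s in Ioo (0 : ℝ) 1, f s)
    (hA9 : Tendsto (fun m : ℕ => ∫⁻ u in PP, ENNReal.ofReal |dx (SS m) u|) atTop (𝓝 4)) :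
    Dom PP SS := by
  obtain ⟨hop, hinv, hU, hcpt⟩ := hA4
  have h00 : ‖(0 : ℂ)‖ < 1 := by simp
  have hU0 : U 0 = 0 := by
    have h := (hA3 h00).1
    rw [norm_zero] at h
    exact norm_le_zero_iff.1 h
  refine ⟨hop, ?_, ?_, fun m hm => (hA6 hm).1, ?_, ?_, ?_, ?_, ?_, ?_, hA9, ?_, ?_⟩
  · -- `0 ∈ P`
    have h := (hU 0 h00).1
    rwa [hU0] at h
  · -- `|Im u| < 1`
    intro u hu
    obtain ⟨h1, h2, -⟩ := hinv u hu
    calc |u.im| ≤ ‖u‖ := Complex.abs_im_le_norm u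
      _ = ‖U (hh u)‖ := by rw [h2]
      _ ≤ ‖hh u‖ := (hA3 h1).1
      _ < 1 := h1
  · -- `S < 1`
    intro m hm u hu
    exact pow_lt_one₀ (norm_nonneg _) (hinv u hu).1 (by omega)
  · -- compact sublevel sets
    intro m hm t ht
    rcases lt_or_ge t 0 with h0 | h0
    · have he : {u | u ∈ PP ∧ SS m u ≤ t} = ∅ := by
        ext u
        simp only [mem_setOf_eq, mem_empty_iff_false, iff_false, not_and, not_le]
        intro _
        exact h0.trans_le (by unfold SS; positivity)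
      rw [he]
      exact isCompact_empty
    · have hm0 : (2 * m : ℕ) ≠ 0 := by omega
      have hr : t ^ (((2 * m : ℕ) : ℝ)⁻¹) < 1 :=
        Real.rpow_lt_one h0 ht (by positivity)
      have he : {u | u ∈ PP ∧ SS m u ≤ t} =
          {u | u ∈ PP ∧ ‖hh u‖ ≤ t ^ (((2 * m : ℕ) : ℝ)⁻¹)} := by
        ext u
        simp only [mem_setOf_eq]
        refine and_congr_right fun _ => ?_
        unfold SS
        have h1 : (t ^ (((2 * m : ℕ) : ℝ)⁻¹)) ^ (2 * m) = t := Real.rpow_inv_natCast_pow h0 hm0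
        rw [← pow_le_pow_iff_left₀ (norm_nonneg (hh u))
          (Real.rpow_nonneg h0 _) hm0, h1]
      rw [he]
      exact hcpt _ hr
  · intro m hm u hu v hv h1 h2
    exact (hA7 hm u hu v hv h1 h2).2
  · intro m hm u hu
    exact ((hA6 hm).2 u hu).1
  · intro m hm u hu
    exact ((hA6 hm).2 u hu).2.2
  · intro m hm f hf
    exact hA8 hm f hf
  · intro m hm u hu
    obtain ⟨h1, h2, -⟩ := hinv u hu
    unfold SS
    refine pow_le_pow_left₀ (norm_nonneg _) ?_ _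
    calc ‖u‖ = ‖U (hh u)‖ := by rw [h2]
      _ ≤ ‖hh u‖ := (hA3 h1).1
  · intro m hm u hu
    obtain ⟨h1, h2, -⟩ := hinv u hu
    unfold SS
    refine pow_le_pow_left₀ (norm_nonneg _) ?_ _
    calc ‖hh u‖ ≤ 2 * ‖U (hh u)‖ := (hA3 h1).2.1
      _ = 2 * ‖u‖ := by rw [h2]

end Pool.Agent.H224R2.Mah
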